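import Pool.Agent.H49.RX6

set_option autoImplicit false

namespace Pool.Agent.Results.MP_4abfef_an.Q1

open MeasureTheory Pool.Agent.H49.RX

/-- A typical extension of a transformation that is mixing of multiplicity `k` is mixing of
multiplicity `k`. -/
theorem result {X Y : Type} [MeasurableSpace X] [StandardBorelSpace X] [MeasurableSpace Y]
    [StandardBorelSpace Y] (μ : Measure X) (ν : Measure Y) [IsProbabilityMeasure μ]
    [IsProbabilityMeasure ν] [NullSingletonClass μ] [NullSingletonClass ν] (k : ℕ) (hk : 1 < k)
    (T : Aut μ) (hT : Mix k T) : {S : Ext T ν | Mix k S.1} ∈ residual (Ext T ν) := by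
  obtain ⟨k, rfl⟩ := Nat.exists_eq_succ_of_ne_zero (by omega : k ≠ 0)
  exact mix_ext hT

end Pool.Agent.Results.MP_4abfef_an.Q1
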